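import Pool.Agent.W2helper37.CS.Main
import Pool.Agent.W2helper37.CS.Plt

/-!
# The cardinality of normal first countable cellular-Lindelöf spaces

Let `X` be a normal `T₁` first countable cellular-Lindelöf space and let `κ` be an uncountable regular
cardinal such that the closures of the sets of cardinality less than `κ` have Lindelöf number at most
`κ`. Then `|X| ≤ 2 ^{<κ}`. In particular, in ZFC:

* `|X| ≤ 𝔠` if the closures of the countable sets have Lindelöf number at most `ℵ₁` (`κ = ℵ₁`), for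
  instance if `X` is metaLindelöf; more generally, if every nonempty open set contains a nonempty
  open set which has at most `𝔠` points or satisfies this condition (for instance if `X` is locally
  compact or locally Lindelöf);
* `|X| ≤ 2 ^{<𝔠}` if `𝔠` is regular (`κ = 𝔠`), without a hypothesis on `X`.

The proof: by the theorem of `Pool/Agent/W2helper80/CL/Key.lean` (the hand-in BeyondCH for MP_95b5c3_gt) every
open cover of `X` has a subfamily of cardinality less than `κ` with dense union. The closing off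
argument of Bell, Ginsburg and Woods, with operations of less than `κ` arguments, then gives a closed
subset of cardinality at most `2 ^{<κ}` which is all of `X`.
-/

set_option autoImplicit false

universe u

namespace Pool.Agent.Results.MP_3125f4_gt.ZFCBounds

open Set Cardinal Topology Pool.Agent.W2helper37.CS

/-- every family of pairwise disjoint nonempty open sets is met by a Lindelöf subspace -/
def CellularLindelof (X : Type u) [TopologicalSpace X] : Prop :=
  ∀ C : Set (Set X), (∀ U ∈ C, IsOpen U ∧ U.Nonempty) →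
    (∀ U ∈ C, ∀ V ∈ C, U ≠ V → Disjoint U V) →
      ∃ L : Set X, IsLindelof L ∧ ∀ U ∈ C, (L ∩ U).Nonempty

/-- the Lindelöf number of the subset `F` is at most `κ`: every family of open sets of `X` covering
`F` has a subfamily of cardinality at most `κ` covering `F` -/
def LindelofNumberLE (κ : Cardinal.{u}) {X : Type u} [TopologicalSpace X] (F : Set X) : Prop :=
  ∀ 𝒰 : Set (Set X), (∀ U ∈ 𝒰, IsOpen U) → F ⊆ ⋃₀ 𝒰 → ∃ 𝒱 ⊆ 𝒰, #𝒱 ≤ κ ∧ F ⊆ ⋃₀ 𝒱

/-- every open cover has a point-countable open refinement -/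
def MetaLindelof (X : Type u) [TopologicalSpace X] : Prop :=
  ∀ 𝒰 : Set (Set X), (∀ U ∈ 𝒰, IsOpen U) → ⋃₀ 𝒰 = Set.univ →
    ∃ 𝒲 : Set (Set X), (∀ W ∈ 𝒲, IsOpen W ∧ ∃ U ∈ 𝒰, W ⊆ U) ∧ ⋃₀ 𝒲 = Set.univ ∧
      ∀ x, {W ∈ 𝒲 | x ∈ W}.Countable

/-- closures in first countable Hausdorff spaces -/
lemma mk_closure_le (X : Type u) [TopologicalSpace X] [T2Space X] [FirstCountableTopology X]
    (A : Set X) : #(closure A) ≤ #A ^ ℵ₀ := by
  have h1 : ∀ x : closure A, ∃ s : ℕ → A,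
      Filter.Tendsto (fun n => (s n : X)) Filter.atTop (𝓝 (x : X)) := by
    intro x
    obtain ⟨s, hs, hsx⟩ := mem_closure_iff_seq_limit.1 x.2
    exact ⟨fun n => ⟨s n, hs n⟩, hsx⟩
  choose s hs using h1
  have h2 : Function.Injective s := by
    intro x y hxy
    have h3 := hs x
    rw [hxy] at h3
    exact Subtype.ext (tendsto_nhds_unique h3 (hs y))
  calc #(closure A) ≤ #(ℕ → A) := mk_le_of_injective h2
    _ = #A ^ ℵ₀ := by simp

lemma lindelof_of_card (X : Type u) [TopologicalSpace X] (κ : Cardinal.{u}) (F : Set X)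
    (hF : #F ≤ κ) : LindelofNumberLE κ F := by
  intro 𝒰 _ hcov
  have h1 : ∀ x : F, ∃ U ∈ 𝒰, (x : X) ∈ U := fun x => hcov x.2
  choose U hU hxU using h1
  refine ⟨Set.range U, ?_, mk_range_le.trans hF, ?_⟩
  · rintro _ ⟨x, rfl⟩
    exact hU x
  · intro x hx
    exact ⟨U ⟨x, hx⟩, ⟨⟨x, hx⟩, rfl⟩, hxU ⟨x, hx⟩⟩

/-- in a metaLindelöf space the closures of the countable sets are Lindelöf -/
lemma meta_closure (X : Type u) [TopologicalSpace X] (h : MetaLindelof X) (A : Set X)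
    (hA : A.Countable) : LindelofNumberLE ℵ₁ (closure A) := by
  classical
  intro 𝒰 hU hcov
  obtain ⟨𝒲, hW, hWc, hpc⟩ := h (insert (closure A)ᶜ 𝒰) (by
    intro U hU'
    rcases mem_insert_iff.1 hU' with rfl | hU'
    · exact isClosed_closure.isOpen_compl
    · exact hU U hU') (by
    apply Set.eq_univ_of_forall
    intro x
    by_cases hx : x ∈ closure A
    · obtain ⟨U, hU', hxU⟩ := hcov hx
      exact ⟨U, mem_insert_of_mem _ hU', hxU⟩
    · exact ⟨_, mem_insert _ _, hx⟩)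
  set 𝒲' : Set (Set X) := ⋃ a ∈ A, {W ∈ 𝒲 | a ∈ W} with hW'
  have hc' : 𝒲'.Countable := hA.biUnion fun a _ => hpc a
  have hsel : ∀ W : 𝒲', ∃ U ∈ 𝒰, (W : Set X) ⊆ U := by
    rintro ⟨W, hWm⟩
    obtain ⟨a, ha, hWW, haW⟩ := mem_iUnion₂.1 hWm
    obtain ⟨U, hU', hWU⟩ := (hW W hWW).2
    rcases mem_insert_iff.1 hU' with rfl | hU'
    · exact absurd (subset_closure ha) (hWU haW)
    · exact ⟨U, hU', hWU⟩
  choose f hf hf2 using hsel
  have : Countable 𝒲' := hc'.to_subtype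
  refine ⟨Set.range f, ?_, ?_, ?_⟩
  · rintro _ ⟨W, rfl⟩
    exact hf W
  · exact (le_aleph0_iff_set_countable.2 (Set.countable_range f)).trans aleph0_lt_aleph_one.le
  · intro x hx
    have hx2 : x ∈ ⋃₀ 𝒲 := by rw [hWc]; trivial
    obtain ⟨W, hWW, hxW⟩ := hx2
    obtain ⟨a, haW, haA⟩ := mem_closure_iff.1 hx W (hW W hWW).1 hxW
    have hWm : W ∈ 𝒲' := mem_iUnion₂.2 ⟨a, haA, hWW, haW⟩
    exact ⟨f ⟨W, hWm⟩, ⟨⟨W, hWm⟩, rfl⟩, hf2 ⟨W, hWm⟩ hxW⟩

lemma two (X : Type u) [TopologicalSpace X] [T1Space X] [NormalSpace X]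
    [FirstCountableTopology X] (hX : CellularLindelof X)
    (h1 : ∀ A : Set X, A.Countable → LindelofNumberLE ℵ₁ (closure A)) : #X ≤ 𝔠 := by
  have h2 : 2 ^< (ℵ₁ : Cardinal.{u}) ≤ 𝔠 := by
    rw [powerlt_le]
    intro x hx
    rw [← two_power_aleph0]
    exact power_le_power_left two_ne_zero (lt_aleph_one_iff.1 hx)
  refine (card_le hX ℵ₁ isRegular_aleph_one aleph0_lt_aleph_one
    (fun A hA => h1 A (le_aleph0_iff_set_countable.1 (lt_aleph_one_iff.1 hA))) _
      (le_of_forall_lt fun x hx => (cantor x).trans_le (le_powerlt 2 hx))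
      fun ν hν => powerlt_pow isRegular_aleph_one aleph0_lt_aleph_one hν).trans h2

/-- Lindelöf subsets have at most `𝔠` points -/
lemma lindelof_small (X : Type u) [TopologicalSpace X] [T1Space X] [NormalSpace X]
    [FirstCountableTopology X] (L : Set X) (hL : IsLindelof L) : #L ≤ 𝔠 := by
  have : T4Space X := {}
  have : LindelofSpace L := isLindelof_iff_LindelofSpace.1 hL
  refine two L (fun C hC _ => ⟨Set.univ, isLindelof_univ, fun U hU => by simpa using (hC U hU).2⟩)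
    fun A _ => ?_
  intro 𝒰 hU hcov
  obtain ⟨r, hr, hrc⟩ := (isClosed_closure (s := A)).isLindelof.elim_countable_subcover
    (fun U : 𝒰 => (U : Set L)) (fun U => hU U U.2) (by simpa [sUnion_eq_iUnion] using hcov)
  refine ⟨Subtype.val '' r, ?_, ?_, ?_⟩
  · rintro _ ⟨U, -, rfl⟩
    exact U.2
  · exact (le_aleph0_iff_set_countable.2 (hr.image _)).trans aleph0_lt_aleph_one.le
  · intro x hx
    obtain ⟨U, hU', hxU⟩ := mem_iUnion₂.1 (hrc hx)
    exact ⟨U, ⟨U, hU', rfl⟩, hxU⟩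

/-- regular closed subsets -/
lemma closure_small (X : Type u) [TopologicalSpace X] [T1Space X] [NormalSpace X]
    [FirstCountableTopology X] (hX : CellularLindelof X) (V : Set X) (hV : IsOpen V)
    (h : ∀ A ⊆ closure V, A.Countable → LindelofNumberLE ℵ₁ (closure A)) : #(closure V) ≤ 𝔠 := by
  classical
  have hce : IsClosedEmbedding (Subtype.val : closure V → X) :=
    isClosed_closure.isClosedEmbedding_subtypeVal
  have : NormalSpace (closure V) := hce.normalSpace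
  have hW : ∀ U : Set (closure V), ∃ W : Set X, IsOpen U → IsOpen W ∧ Subtype.val ⁻¹' W = U := by
    intro U
    by_cases hU : IsOpen U
    · obtain ⟨W, h1, h2⟩ := isOpen_induced_iff.1 hU
      exact ⟨W, fun _ => ⟨h1, h2⟩⟩
    · exact ⟨∅, fun h => absurd h hU⟩
  choose W hW using hW
  refine two (closure V) (fun C hC hd => ?_) fun A hA => ?_
  · obtain ⟨L, hL, hLC⟩ := hX ((fun U => W U ∩ V) '' C) (by
      rintro _ ⟨U, hU, rfl⟩
      obtain ⟨h1, h2⟩ := hW U (hC U hU).1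
      refine ⟨h1.inter hV, ?_⟩
      obtain ⟨x, hx⟩ := (hC U hU).2
      rw [← h2] at hx
      exact mem_closure_iff.1 x.2 _ h1 hx) (by
      rintro _ ⟨U, hU, rfl⟩ _ ⟨U', hU', rfl⟩ hne
      rw [Set.disjoint_left]
      rintro y ⟨hy, hyV⟩ ⟨hy', -⟩
      have hUU : U ≠ U' := fun e => hne (by rw [e])
      have a1 : (⟨y, subset_closure hyV⟩ : closure V) ∈ U := by
        rw [← (hW U (hC U hU).1).2]; exact hy
      have a2 : (⟨y, subset_closure hyV⟩ : closure V) ∈ U' := by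
        rw [← (hW U' (hC U' hU').1).2]; exact hy'
      exact Set.disjoint_left.1 (hd U hU U' hU' hUU) a1 a2)
    refine ⟨Subtype.val ⁻¹' L, ?_, fun U hU => ?_⟩
    · rw [Subtype.isLindelof_iff, Subtype.image_preimage_coe]
      exact hL.inter_left isClosed_closure
    · obtain ⟨y, hyL, hyW, hyV⟩ := hLC _ ⟨U, hU, rfl⟩
      refine ⟨⟨y, subset_closure hyV⟩, hyL, ?_⟩
      rw [← (hW U (hC U hU).1).2]
      exact hyW
  · intro 𝒰 hU hcov
    obtain ⟨𝒱, h1, h2, h3⟩ := h (Subtype.val '' A) (by rintro _ ⟨a, -, rfl⟩; exact a.2)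
      (hA.image _) (W '' 𝒰) (by rintro _ ⟨U, hU', rfl⟩; exact (hW U (hU U hU')).1) (by
        intro y hy
        have hyV : y ∈ closure V := closure_minimal (by rintro _ ⟨a, -, rfl⟩; exact a.2)
          isClosed_closure hy
        have hyA : (⟨y, hyV⟩ : closure V) ∈ closure A := by
          rw [hce.isInducing.closure_eq_preimage_closure_image]
          exact hy
        obtain ⟨U, hU', hyU⟩ := hcov hyA
        refine ⟨W U, ⟨U, hU', rfl⟩, ?_⟩
        rw [← (hW U (hU U hU')).2] at hyU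
        exact hyU)
    refine ⟨(fun Z => Subtype.val ⁻¹' Z) '' 𝒱, ?_, mk_image_le.trans h2, ?_⟩
    · rintro _ ⟨Z, hZ, rfl⟩
      obtain ⟨U, hU', rfl⟩ := h1 hZ
      show Subtype.val ⁻¹' (W U) ∈ 𝒰
      rw [(hW U (hU U hU')).2]
      exact hU'
    · intro x hx
      have hx' : (x : X) ∈ closure (Subtype.val '' A) := by
        rw [hce.isInducing.closure_eq_preimage_closure_image] at hx
        exact hx
      obtain ⟨Z, hZ, hxZ⟩ := h3 hx'
      exact ⟨_, ⟨Z, hZ, rfl⟩, hxZ⟩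

/-- the local version -/
lemma local_small (X : Type u) [TopologicalSpace X] [T1Space X] [NormalSpace X]
    [FirstCountableTopology X] (hX : CellularLindelof X)
    (h : ∀ G : Set X, IsOpen G → G.Nonempty → ∃ V ⊆ G, IsOpen V ∧ V.Nonempty ∧
      (#V ≤ 𝔠 ∨ ∀ A ⊆ V, A.Countable → LindelofNumberLE ℵ₁ (closure A))) : #X ≤ 𝔠 := by
  classical
  have : T4Space X := {}
  have hs : ∀ G : Set X, IsOpen G → G.Nonempty → ∃ V ⊆ G, IsOpen V ∧ V.Nonempty ∧ #V ≤ 𝔠 := by
    intro G hG hne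
    obtain ⟨V, hVG, hV, ⟨x, hx⟩, hV'⟩ := h G hG hne
    rcases hV' with h1 | h1
    · exact ⟨V, hVG, hV, ⟨x, hx⟩, h1⟩
    · obtain ⟨V', h2, h3, h4⟩ := normal_exists_closure_subset (isClosed_singleton (x := x)) hV
        (by simpa using hx)
      refine ⟨V', (subset_closure.trans h4).trans hVG, h2, ⟨x, h3 rfl⟩, ?_⟩
      exact (mk_le_mk_of_subset subset_closure).trans
        (closure_small X hX V' h2 fun A hA => h1 A (hA.trans h4))
  obtain ⟨C, hC⟩ : ∃ C : Set (Set X), Maximal (fun C : Set (Set X) =>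
      (∀ U ∈ C, IsOpen U ∧ U.Nonempty ∧ #U ≤ 𝔠) ∧
        ∀ U ∈ C, ∀ V ∈ C, U ≠ V → Disjoint U V) C := by
    refine zorn_subset {C : Set (Set X) | (∀ U ∈ C, IsOpen U ∧ U.Nonempty ∧ #U ≤ 𝔠) ∧
        ∀ U ∈ C, ∀ V ∈ C, U ≠ V → Disjoint U V} ?_
    intro c hc hchain
    refine ⟨⋃₀ c, ⟨?_, ?_⟩, fun s hs => subset_sUnion_of_mem hs⟩
    · rintro U ⟨s, hs, hU⟩
      exact (hc hs).1 U hU
    · rintro U ⟨s, hs, hU⟩ V ⟨t, ht, hV⟩ hne
      rcases hchain.total hs ht with h | h
      · exact (hc ht).2 U (h hU) V hV hne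
      · exact (hc hs).2 U hU V (h hV) hne
  obtain ⟨hC1, hC2⟩ := hC.prop
  have hCc : #C ≤ 𝔠 := by
    obtain ⟨L, hL, hLC⟩ := hX C (fun U hU => ⟨(hC1 U hU).1, (hC1 U hU).2.1⟩) hC2
    choose f hf using fun U : C => hLC U U.2
    refine (mk_le_of_injective (f := fun U : C => (⟨f U, (hf U).1⟩ : L)) ?_).trans
      (lindelof_small X L hL)
    intro U U' e
    have e' : f U = f U' := congrArg Subtype.val e
    by_contra hne
    exact Set.disjoint_left.1 (hC2 U U.2 U' U'.2 fun e => hne (Subtype.ext e)) (hf U).2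
      (e' ▸ (hf U').2)
  have hD : #(⋃₀ C) ≤ 𝔠 := by
    refine (mk_sUnion_le C).trans ?_
    calc #C * ⨆ s : C, #(s : Set X) ≤ 𝔠 * 𝔠 :=
          mul_le_mul' hCc (ciSup_le' fun s => (hC1 s s.2).2.2)
      _ = 𝔠 := mul_eq_self aleph0_le_continuum
  have hdense : closure (⋃₀ C) = Set.univ := by
    by_contra hne
    obtain ⟨V, h1, h2, h3, h4⟩ := hs (closure (⋃₀ C))ᶜ isClosed_closure.isOpen_compl
      (nonempty_compl.2 hne)
    have hdV : ∀ U ∈ C, Disjoint U V := fun U hU => Set.disjoint_left.2 fun y hy hyV =>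
      h1 hyV (subset_closure ⟨U, hU, hy⟩)
    have hVC : V ∈ C := by
      refine hC.le_of_ge (y := insert V C) ⟨?_, ?_⟩ (subset_insert _ _) (mem_insert _ _)
      · rintro U (rfl | hU)
        exacts [⟨h2, h3, h4⟩, hC1 U hU]
      · rintro U (rfl | hU) U' (rfl | hU') hne
        exacts [absurd rfl hne, (hdV U' hU').symm, hdV U hU, hC2 U hU U' hU' hne]
    obtain ⟨y, hy⟩ := h3
    exact h1 hy (subset_closure ⟨V, hVC, hy⟩)
  have := mk_closure_le X (⋃₀ C)
  rw [hdense, mk_univ] at this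
  calc #X ≤ #(⋃₀ C) ^ ℵ₀ := this
    _ ≤ 𝔠 ^ ℵ₀ := power_le_power_right hD
    _ = 𝔠 := continuum_power_aleph0

/-- Bounds in ZFC for the cardinality of normal first countable cellular-Lindelöf spaces. -/
theorem result (X : Type u) [TopologicalSpace X] [T1Space X] [NormalSpace X]
    [FirstCountableTopology X] (hX : CellularLindelof X) :
    (∀ κ : Cardinal.{u}, κ.IsRegular → ℵ₀ < κ →
      (∀ A : Set X, #A < κ → LindelofNumberLE κ (closure A)) → #X ≤ 2 ^< κ) ∧
    ((∀ G : Set X, IsOpen G → G.Nonempty → ∃ V ⊆ G, IsOpen V ∧ V.Nonempty ∧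
      (#V ≤ 𝔠 ∨ ∀ A ⊆ V, A.Countable → LindelofNumberLE ℵ₁ (closure A))) → #X ≤ 𝔠) ∧
    (MetaLindelof X → #X ≤ 𝔠) ∧
    ((𝔠 : Cardinal.{u}).IsRegular → #X ≤ 2 ^< 𝔠) := by
  have : T4Space X := {}
  have main : ∀ κ : Cardinal.{u}, κ.IsRegular → ℵ₀ < κ →
      (∀ A : Set X, #A < κ → LindelofNumberLE κ (closure A)) → #X ≤ 2 ^< κ :=
    fun κ hκ hω hL => card_le hX κ hκ hω hL _
      (le_of_forall_lt fun x hx => (cantor x).trans_le (le_powerlt 2 hx))
      fun ν hν => powerlt_pow hκ hω hν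
  refine ⟨main, local_small X hX, fun h => two X hX (meta_closure X h), fun h => ?_⟩
  refine main 𝔠 h aleph0_lt_continuum fun A hA => lindelof_of_card X 𝔠 _ ?_
  calc #(closure A) ≤ #A ^ ℵ₀ := mk_closure_le X A
    _ ≤ 𝔠 ^ ℵ₀ := power_le_power_right hA.le
    _ = 𝔠 := continuum_power_aleph0

end Pool.Agent.Results.MP_3125f4_gt.ZFCBounds
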